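import Pool.Agent.Work.MP_86ed72_nt.LS.Final

namespace Pool.Agent.Results.MP_86ed72_nt.LogCountK4

/-- Among the integers `n ∈ [N, 2N)` at most `15000`, and among the integers `n ≤ N` at most
`67500 log N`, are such that `n! + x = x ^ k` for some integers `x ≥ 2`, `k ≥ 4`. -/
theorem result : ∀ N : ℕ, 2 ≤ N →
    {n : ℕ | N ≤ n ∧ n < 2 * N ∧
        ∃ x k : ℕ, 2 ≤ x ∧ 4 ≤ k ∧ n.factorial + x = x ^ k}.ncard ≤ 15000 ∧
    ({n : ℕ | n ≤ N ∧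
        ∃ x k : ℕ, 2 ≤ x ∧ 4 ≤ k ∧ n.factorial + x = x ^ k}.ncard : ℝ)
      ≤ 67500 * Real.log N := by
  intro N hN
  constructor
  · have h : ({n : ℕ | N ≤ n ∧ n < 2 * N ∧
        ∃ x k : ℕ, 2 ≤ x ∧ 4 ≤ k ∧ n.factorial + x = x ^ k}.ncard : ℝ) ≤ 15000 := by
      apply Pool.Agent.Work.MP_86ed72_nt.LS.ncard_le _ (2 * N) (fun n hn => hn.2.1.le)
      intro S hS
      exact Pool.Agent.Work.MP_86ed72_nt.LS.dyadic5 N hN S
        (fun n hn => ⟨⟨(hS n hn).1, (hS n hn).2.1⟩, (hS n hn).2.2⟩)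
    exact_mod_cast h
  · apply Pool.Agent.Work.MP_86ed72_nt.LS.ncard_le _ N (fun n hn => hn.1)
    intro S hS
    exact Pool.Agent.Work.MP_86ed72_nt.LS.cum5 N hN S
      (fun n hn => ⟨(hS n hn).1, (hS n hn).2⟩)

end Pool.Agent.Results.MP_86ed72_nt.LogCountK4
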