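import Pool.Agent.Work.MP_86ed72_nt.Main

namespace Pool.Agent.Results.MP_86ed72_nt.OnlyK3K5

/-- Every solution of `n! + x = x^k` with `n ≥ 1`, `x ≥ 2`, `k ≥ 3` has `k = 3` or `k = 5`. -/
theorem result : ∀ n x k : ℕ, 1 ≤ n → 2 ≤ x → 3 ≤ k →
    n.factorial + x = x ^ k → k = 3 ∨ k = 5 := by
  intro n x k _ hx hk h
  by_contra hc
  push Not at hc
  exact Pool.Agent.Work.MP_86ed72_nt.main n x k hx (by omega) hc.2 h

end Pool.Agent.Results.MP_86ed72_nt.OnlyK3K5
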