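import Pool.Agent.Work.MP_86ed72_nt.LS.Final

namespace Pool.Agent.Results.MP_86ed72_nt.PolylogCount

/-- Among the integers `n ∈ [N, 2N)` at most `100 (log N)²`, and among the integers `n ≤ N` at most
`450 (log N)³`, are such that `n! + x = x ^ k` for some integers `x ≥ 2`, `k ≥ 3`. -/
theorem result : ∀ N : ℕ, 2 ≤ N →
    ({n : ℕ | N ≤ n ∧ n < 2 * N ∧
        ∃ x k : ℕ, 2 ≤ x ∧ 3 ≤ k ∧ n.factorial + x = x ^ k}.ncard : ℝ)
      ≤ 100 * (Real.log N) ^ 2 ∧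
    ({n : ℕ | n ≤ N ∧
        ∃ x k : ℕ, 2 ≤ x ∧ 3 ≤ k ∧ n.factorial + x = x ^ k}.ncard : ℝ)
      ≤ 450 * (Real.log N) ^ 3 := by
  intro N hN
  constructor
  · apply Pool.Agent.Work.MP_86ed72_nt.LS.ncard_le _ (2 * N) (fun n hn => hn.2.1.le)
    intro S hS
    exact Pool.Agent.Work.MP_86ed72_nt.LS.dyadicAll N hN S
      (fun n hn => ⟨⟨(hS n hn).1, (hS n hn).2.1⟩, (hS n hn).2.2⟩)
  · apply Pool.Agent.Work.MP_86ed72_nt.LS.ncard_le _ N (fun n hn => hn.1)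
    intro S hS
    exact Pool.Agent.Work.MP_86ed72_nt.LS.cumAll N hN S
      (fun n hn => ⟨(hS n hn).1, (hS n hn).2⟩)

end Pool.Agent.Results.MP_86ed72_nt.PolylogCount
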